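import Mathlib

namespace Pool.Agent.Results.MP_3ea013_an.StableIdeal

/-- `S`, with the restricted norm, is left stable; tested only against elements of `S`. -/
def LeftStableOn {A : Type} [NormedRing A] (S : Set A) : Prop :=
  ∀ a ∈ S, ∀ M : ℝ, 0 < M → (∀ b ∈ S, ‖a * b‖ ≤ M * ‖b‖) → ‖a‖ ≤ M

/-- `S`, with the restricted norm, is right stable; tested only against elements of `S`. -/
def RightStableOn {A : Type} [NormedRing A] (S : Set A) : Prop :=
  ∀ a ∈ S, ∀ M : ℝ, 0 < M → (∀ b ∈ S, ‖b * a‖ ≤ M * ‖b‖) → ‖a‖ ≤ M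

/-- the algebra: the unitization of the complex numbers with the `ℓ¹` norm -/
abbrev AA : Type := WithLp 1 (Unitization ℂ ℂ)

lemma ext' {x y : AA} (h1 : (WithLp.ofLp x).fst = (WithLp.ofLp y).fst)
    (h2 : (WithLp.ofLp x).snd = (WithLp.ofLp y).snd) : x = y := by
  apply (WithLp.equiv 1 (Unitization ℂ ℂ)).injective
  exact Unitization.ext h1 h2

lemma fst_mul (x y : AA) : (WithLp.ofLp (x * y)).fst = (WithLp.ofLp x).fst * (WithLp.ofLp y).fst := by
  rw [WithLp.unitization_mul, Unitization.fst_mul]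

lemma snd_mul (x y : AA) : (WithLp.ofLp (x * y)).snd =
    (WithLp.ofLp x).fst * (WithLp.ofLp y).snd + (WithLp.ofLp y).fst * (WithLp.ofLp x).snd +
      (WithLp.ofLp x).snd * (WithLp.ofLp y).snd := by
  rw [WithLp.unitization_mul, Unitization.snd_mul, smul_eq_mul, smul_eq_mul]

/-- the ideal -/
noncomputable def II : TwoSidedIdeal AA := TwoSidedIdeal.mk' {x | (WithLp.ofLp x).snd = -(WithLp.ofLp x).fst}
  (by show (WithLp.ofLp (0 : AA)).snd = -(WithLp.ofLp (0 : AA)).fst; simp)
  (fun {x y} hx hy => by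
    have hx' : (WithLp.ofLp x).snd = -(WithLp.ofLp x).fst := hx
    have hy' : (WithLp.ofLp y).snd = -(WithLp.ofLp y).fst := hy
    show (WithLp.ofLp (x + y)).snd = -(WithLp.ofLp (x + y)).fst
    rw [WithLp.ofLp_add, Unitization.snd_add, Unitization.fst_add, hx', hy']; ring)
  (fun {x} hx => by
    have hx' : (WithLp.ofLp x).snd = -(WithLp.ofLp x).fst := hx
    show (WithLp.ofLp (-x)).snd = -(WithLp.ofLp (-x)).fst
    rw [WithLp.ofLp_neg, Unitization.snd_neg, Unitization.fst_neg, hx'])
  (fun {x y} hy => by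
    have hy' : (WithLp.ofLp y).snd = -(WithLp.ofLp y).fst := hy
    show (WithLp.ofLp (x * y)).snd = -(WithLp.ofLp (x * y)).fst
    rw [snd_mul, fst_mul, hy']; ring)
  (fun {x y} hx => by
    have hx' : (WithLp.ofLp x).snd = -(WithLp.ofLp x).fst := hx
    show (WithLp.ofLp (x * y)).snd = -(WithLp.ofLp (x * y)).fst
    rw [snd_mul, fst_mul, hx']; ring)

lemma mem_II {x : AA} : x ∈ II ↔ (WithLp.ofLp x).snd = -(WithLp.ofLp x).fst := by
  unfold II
  rw [TwoSidedIdeal.mem_mk']
  rfl

/-- the identity of the ideal -/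
noncomputable def pp : AA := WithLp.toLp 1 (Unitization.inl 1 + ((-1 : ℂ) : Unitization ℂ ℂ))

lemma fst_pp : (WithLp.ofLp pp).fst = 1 := by simp [pp]

lemma snd_pp : (WithLp.ofLp pp).snd = -1 := by simp [pp]

lemma norm_pp : ‖pp‖ = 2 := by
  rw [WithLp.unitization_norm_def, fst_pp, snd_pp]; norm_num

lemma mul_comm' (x y : AA) : x * y = y * x :=
  ext' (by rw [fst_mul, fst_mul, mul_comm]) (by rw [snd_mul, snd_mul]; ring)

lemma pp_mul {b : AA} (hb : b ∈ II) : pp * b = b := by
  rw [mem_II] at hb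
  refine ext' ?_ ?_
  · rw [fst_mul, fst_pp, one_mul]
  · rw [snd_mul, fst_pp, snd_pp, hb]; ring

/-- There are a commutative, finite-dimensional, complete, reduced normed algebra `A` over the
complex numbers which is stable, and a two-sided ideal of `A` which, with the restricted norm, is
neither left stable nor right stable. -/
theorem result : ∃ (A : Type) (_ : NormedRing A) (_ : NormedAlgebra ℂ A),
    (∀ x y : A, x * y = y * x) ∧ FiniteDimensional ℂ A ∧ CompleteSpace A ∧
    (∀ x : A, x * x = 0 → x = 0) ∧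
    LeftStableOn (Set.univ : Set A) ∧ RightStableOn (Set.univ : Set A) ∧
    ∃ I : TwoSidedIdeal A, ¬ LeftStableOn {x | x ∈ I} ∧ ¬ RightStableOn {x | x ∈ I} := by
  refine ⟨AA, inferInstance, inferInstance, mul_comm', ?_, inferInstance, ?_, ?_, ?_, II, ?_, ?_⟩
  · have e : AA ≃ₗ[ℂ] (ℂ × ℂ) :=
      (WithLp.linearEquiv 1 ℂ (Unitization ℂ ℂ)).trans
        { toFun := fun x => (x.fst, x.snd)
          invFun := fun p => Unitization.inl p.1 + (p.2 : Unitization ℂ ℂ)
          map_add' := fun x y => rfl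
          map_smul' := fun c x => rfl
          left_inv := fun x => by
            refine Unitization.ext ?_ ?_ <;> simp
          right_inv := fun p => by simp }
    exact e.symm.finiteDimensional
  · intro x hx
    have h1 := congrArg (fun z : AA => (WithLp.ofLp z).fst) hx
    have h2 := congrArg (fun z : AA => (WithLp.ofLp z).snd) hx
    simp only [fst_mul, snd_mul] at h1 h2
    have h3 : (WithLp.ofLp x).fst = 0 := by
      have : (WithLp.ofLp x).fst * (WithLp.ofLp x).fst = 0 := by rw [h1]; simp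
      exact mul_self_eq_zero.mp this
    rw [h3] at h2
    have h4 : (WithLp.ofLp x).snd = 0 := by
      have : (WithLp.ofLp x).snd * (WithLp.ofLp x).snd = 0 := by
        have h5 : (WithLp.ofLp (0 : AA)).snd = 0 := by simp
        rw [h5] at h2
        linear_combination h2
      exact mul_self_eq_zero.mp this
    exact ext' (by rw [h3]; simp) (by rw [h4]; simp)
  · intro a _ M _ h
    have := h 1 (Set.mem_univ _)
    have h1 : ‖(1 : AA)‖ = 1 := by
      rw [WithLp.unitization_norm_def]
      have e : WithLp.ofLp (1 : AA) = 1 := rfl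
      rw [e]; simp
    rwa [mul_one, h1, mul_one] at this
  · intro a _ M _ h
    have := h 1 (Set.mem_univ _)
    have h1 : ‖(1 : AA)‖ = 1 := by
      rw [WithLp.unitization_norm_def]
      have e : WithLp.ofLp (1 : AA) = 1 := rfl
      rw [e]; simp
    rwa [one_mul, h1, mul_one] at this
  · intro h
    have hp : pp ∈ II := by rw [mem_II, fst_pp, snd_pp]
    have h1 := h pp hp 1 one_pos (fun b hb => by rw [pp_mul hb, one_mul])
    rw [norm_pp] at h1
    norm_num at h1
  · intro h
    have hp : pp ∈ II := by rw [mem_II, fst_pp, snd_pp]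
    have h1 := h pp hp 1 one_pos (fun b hb => by rw [mul_comm', pp_mul hb, one_mul])
    rw [norm_pp] at h1
    norm_num at h1

end Pool.Agent.Results.MP_3ea013_an.StableIdeal
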